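import Mathlib

/-!
# Non-zero categorical product monoids which are finitely generated as monoids

Let `M` be a categorical product monoid, with projections `p`, `q` and pairing `S`. Write
`h a = S (a p) q` (this is `a × 1`), `σ = S q p` (the twist), `δ = S 1 1` (the diagonal), and
`α = S (p p) (S (q p) q)`, `β = S (S p (p q)) (q q)` (the associativity isomorphisms). Then `h` is an
endomorphism of the monoid `M`, and `h (h a) = β (h a) α`, `S a b = (h a) σ (h b) σ δ`. So the
submonoid generated by a finite set `X`, by `p, q, δ, σ, α, β` and by the images of all these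
elements under `h` is closed under `S`.
-/

set_option autoImplicit false

namespace Pool.Agent.Results.MP_eefcda_al.FinitelyGenerated

/-- `(M, S, p, q)` is a categorical quasiproduct monoid: `p * S a b = a`, `q * S a b = b` and
`S a b * c = S (a * c) (b * c)` for all `a, b, c`. -/
structure IsCQP {M : Type*} [Monoid M] (S : M → M → M) (p q : M) : Prop where
  fst : ∀ a b : M, p * S a b = a
  snd : ∀ a b : M, q * S a b = b
  pairing_mul : ∀ a b c : M, S a b * c = S (a * c) (b * c)

section General

variable {M : Type*} [Monoid M] {S : M → M → M} {p q : M}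

/-- The generating set: `X` with the six structural elements. -/
def base (S : M → M → M) (p q : M) (X : Set M) : Set M :=
  X ∪ {p, q, S 1 1, S q p, S (p * p) (S (q * p) q), S (S p (p * q)) (q * q)}

/-- The generating set, completed by its image under `a ↦ a × 1`. -/
def gens (S : M → M → M) (p q : M) (X : Set M) : Set M :=
  base S p q X ∪ (fun a => S (a * p) q) '' base S p q X

theorem gens_finite {X : Set M} (hX : X.Finite) : (gens S p q X).Finite := by
  have h : (base S p q X).Finite := hX.union (by simp)
  exact h.union (h.image _)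

theorem h_mul (h : IsCQP S p q) (a b : M) : S (a * b * p) q = S (a * p) q * S (b * p) q := by
  rw [h.pairing_mul, h.snd, mul_assoc a p, h.fst, ← mul_assoc]

theorem h_h (h : IsCQP S p q) (a : M) :
    S (S (a * p) q * p) q =
      S (S p (p * q)) (q * q) * S (a * p) q * S (p * p) (S (q * p) q) := by
  simp only [h.pairing_mul, mul_assoc, h.fst, h.snd]

theorem S_eq (h : IsCQP S p q) (a b : M) :
    S a b = S (a * p) q * (S q p * S (b * p) q * S q p) * S 1 1 := by
  simp only [h.pairing_mul, mul_assoc, h.fst, h.snd, mul_one]

/-- In a categorical product monoid, every finite set is contained in a finitely generated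
submonoid which contains the projections and is closed under pairing. -/
theorem closed (h : IsCQP S p q) (h1 : S p q = 1) (X : Set M) :
    ∀ a ∈ Submonoid.closure (gens S p q X), ∀ b ∈ Submonoid.closure (gens S p q X),
      S a b ∈ Submonoid.closure (gens S p q X) := by
  set N := Submonoid.closure (gens S p q X) with hN
  have hbase : base S p q X ⊆ N := fun x hx => Submonoid.subset_closure (Or.inl hx)
  have hh : ∀ a ∈ N, S (a * p) q ∈ N := by
    intro a ha
    induction ha using Submonoid.closure_induction with
    | mem x hx =>
      rcases hx with hx | ⟨y, hy, rfl⟩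
      · exact Submonoid.subset_closure (Or.inr ⟨x, hx, rfl⟩)
      · show S (S (y * p) q * p) q ∈ N
        rw [h_h h]
        refine N.mul_mem (N.mul_mem (hbase (Or.inr (by simp))) ?_) (hbase (Or.inr (by simp)))
        exact Submonoid.subset_closure (Or.inr ⟨y, hy, rfl⟩)
    | one => rw [one_mul, h1]; exact N.one_mem
    | mul x y _ _ hx hy => rw [h_mul h]; exact N.mul_mem hx hy
  have hσ : S q p ∈ N := hbase (Or.inr (by simp))
  have hδ : S 1 1 ∈ N := hbase (Or.inr (by simp))
  intro a ha b hb
  rw [S_eq h]
  exact N.mul_mem (N.mul_mem (hh a ha) (N.mul_mem (N.mul_mem hσ (hh b hb)) hσ)) hδ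

end General

/-- The pairing of two self-maps of `ℕ`, by means of a bijection from `ℕ × ℕ` to `ℕ`. -/
def natS (a b : Function.End ℕ) : Function.End ℕ := fun n => Nat.pair (a n) (b n)

/-- The first projection. -/
def natP : Function.End ℕ := fun n => (Nat.unpair n).1

/-- The second projection. -/
def natQ : Function.End ℕ := fun n => (Nat.unpair n).2

theorem nat_isCQP : IsCQP natS natP natQ where
  fst a b := by
    funext n
    show (Nat.unpair (Nat.pair (a n) (b n))).1 = a n
    rw [Nat.unpair_pair]
  snd a b := by
    funext n
    show (Nat.unpair (Nat.pair (a n) (b n))).2 = b n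
    rw [Nat.unpair_pair]
  pairing_mul a b c := rfl

theorem nat_pairing_one : natS natP natQ = 1 := by
  funext n
  show Nat.pair (Nat.unpair n).1 (Nat.unpair n).2 = n
  rw [Nat.pair_unpair]

/-- There is a categorical quasiproduct monoid (even a categorical product monoid, that is,
`S p q = 1`) with at least two elements whose underlying monoid is finitely generated. -/
theorem result : ∃ (M : Type) (_ : Monoid M) (S : M → M → M) (p q : M),
    IsCQP S p q ∧ S p q = 1 ∧ Nontrivial M ∧ Monoid.FG M := by
  classical
  set N : Submonoid (Function.End ℕ) := Submonoid.closure (gens natS natP natQ ∅) with hN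
  have hcl := closed nat_isCQP nat_pairing_one (∅ : Set (Function.End ℕ))
  have hp : natP ∈ N := Submonoid.subset_closure (Or.inl (Or.inr (by simp)))
  have hq : natQ ∈ N := Submonoid.subset_closure (Or.inl (Or.inr (by simp)))
  refine ⟨N, inferInstance, fun a b => ⟨natS a b, hcl a a.2 b b.2⟩, ⟨natP, hp⟩, ⟨natQ, hq⟩,
    ⟨fun a b => ?_, fun a b => ?_, fun a b c => ?_⟩, ?_, ?_, ?_⟩
  · exact Subtype.ext (nat_isCQP.fst a b)
  · exact Subtype.ext (nat_isCQP.snd a b)
  · exact Subtype.ext (nat_isCQP.pairing_mul a b c)
  · exact Subtype.ext nat_pairing_one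
  · refine ⟨⟨natP, hp⟩, ⟨natQ, hq⟩, fun h => ?_⟩
    have h1 : natP = natQ := congrArg Subtype.val h
    have h2 := congrFun h1 (Nat.pair 0 1)
    have h3 : (Nat.unpair (Nat.pair 0 1)).1 = (Nat.unpair (Nat.pair 0 1)).2 := h2
    rw [Nat.unpair_pair] at h3
    exact absurd h3 (by norm_num)
  · rw [Monoid.fg_iff_submonoid_fg]
    exact (Submonoid.fg_iff _).2 ⟨_, hN.symm, gens_finite Set.finite_empty⟩

end Pool.Agent.Results.MP_eefcda_al.FinitelyGenerated
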